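import Mathlib

/-!
# No property between UOK and unique extensions for one space `L` is given by test spaces

Let `K` be a zero-dimensional compact Hausdorff space without nontrivial convergent sequences, `q` a
point of `K` which is not isolated and `L = K \ {q}`, so that `K` is the one-point compactification
of `L`.  Let `Dq` be `K` with the point `q` doubled.  This compact `T1` space is `C`-Hausdorff for
every class `C` of test spaces such that all UOK spaces are `C`-Hausdorff, but the inclusion of `L`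
has two extensions to `K → Dq`.  So no property `P` with UOK ⟹ `P` ⟹ (unique extensions from `L` to
its one-point compactification) is the `C`-Hausdorff property of a class `C`.

The construction (`D`, `s`, `seq`, `uok`, `key`) is that of the library module
`R_pool_sql_team_22a80281/Results/MP_82653f_gt/NoClass.lean`, where `K = βω` and `P` = UOK.
-/

set_option autoImplicit false

namespace Pool.Agent.Results.MP_82653f_gt.IntervalOfProperties

open Set Filter Topology TopologicalSpace OnePoint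

universe u v

/-- `C`-closed sets, for a class `C` of topological spaces -/
def CClosed (C : (Z : Type v) → TopologicalSpace Z → Prop) {X : Type u} [TopologicalSpace X]
    (H : Set X) : Prop :=
  ∀ (Z : Type v) [τ : TopologicalSpace Z], C Z τ → ∀ f : Z → X, Continuous f → IsClosed (f ⁻¹' H)

/-- `C`-Hausdorff spaces -/
def CHaus (C : (Z : Type v) → TopologicalSpace Z → Prop) (X : Type u) [TopologicalSpace X] : Prop :=
  CClosed C (diagonal X)

/-- every continuous map `L → X` has at most one continuous extension to the one-point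
compactification of `L` -/
def UniqueExt (L : Type u) [TopologicalSpace L] (X : Type u) [TopologicalSpace X] : Prop :=
  ∀ f : L → X, Continuous f → ∀ g h : OnePoint L → X, Continuous g → Continuous h →
    (∀ l : L, g l = f l) → (∀ l : L, h l = f l) → g = h

/-- UOK spaces -/
def UOK (X : Type u) [TopologicalSpace X] : Prop :=
  ∀ (L : Type u) [TopologicalSpace L] [T2Space L] [LocallyCompactSpace L] [NoncompactSpace L],
    UniqueExt L X

/-- no nontrivial sequence converges -/
def NoConv (K : Type u) [TopologicalSpace K] : Prop :=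
  ∀ (s : ℕ → K) (x : K), (∀ n, s n ≠ x) → ¬ Tendsto s atTop (𝓝 x)

section General

variable {K : Type u} [TopologicalSpace K]

omit [TopologicalSpace K] in
theorem seq {Y : Type*} [TopologicalSpace Y] [CompactSpace Y] [T2Space Y] (p : Y) [(𝓝[≠] p).NeBot]
    (h : Y → K) (M : Set (Set K)) (hM : M.PairwiseDisjoint id) (hc : ∀ W ∈ M, IsClopen (h ⁻¹' W))
    (hp : h p ∉ ⋃₀ M) (hN : ∀ᶠ y in 𝓝 p, y ≠ p → h y ∈ ⋃₀ M) :
    ∃ y : ℕ → Y, Tendsto y atTop (𝓝 p) ∧ ∀ n, h (y n) ∈ ⋃₀ M := by
  obtain ⟨N, h1, h2, h3⟩ := exists_mem_nhds_isClosed_subset hN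
  have h4 : {W | W ∈ M ∧ (h ⁻¹' W ∩ N).Nonempty}.Infinite := fun hf => by
    have h5 : ∀ᶠ y in 𝓝 p, ∀ W ∈ {W | W ∈ M ∧ (h ⁻¹' W ∩ N).Nonempty}, h y ∉ W :=
      (eventually_all_finite hf).2 fun W hW => (hc W hW.1).1.isOpen_compl.mem_nhds fun h => hp ⟨W, hW.1, h⟩
    obtain ⟨y, ⟨h6, h7⟩, h8⟩ := (((h5.and h1).filter_mono nhdsWithin_le_nhds).and
      (self_mem_nhdsWithin (s := {p}ᶜ))).exists
    obtain ⟨W, hW, hy⟩ := h3 h7 h8
    exact h6 W ⟨hW, y, hy, h7⟩ hy
  let W := h4.natEmbedding
  choose y hy hy' using fun n => (W n).2.2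
  refine ⟨y, fun V hV => ?_, fun n => ⟨_, (W n).2.1, hy n⟩⟩
  obtain ⟨V', h5, h6, h7⟩ := mem_nhds_iff.1 hV
  obtain ⟨F, h8, h9, h10⟩ := (h2.sdiff h6).isCompact.elim_finite_subcover_image (b := M) (c := fun W => h ⁻¹' W)
    (fun W hW => (hc W hW).2) fun z hz => by
      obtain ⟨W, hW, h⟩ := h3 hz.1 fun h => hz.2 (h ▸ h7)
      exact mem_iUnion₂.2 ⟨W, hW, h⟩
  rw [← Nat.cofinite_eq_atTop]
  refine (h9.preimage (Subtype.val_injective.comp W.injective).injOn).subset fun n hn => ?_
  obtain ⟨W', h11, h12⟩ := mem_iUnion₂.1 (h10 ⟨hy' n, fun h => hn (h5 h)⟩)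
  show (W n).1 ∈ F
  exact mem_of_eq_of_mem (hM.elim_set (W n).2.1 (h8 h11) _ (hy n) h12) h11

/-- the points outside `A` are doubled and the members of `M` are made clopen -/
def D (A : Set K) (_M : Set (Set K)) : Type u := {x : K × Bool // x.1 ∈ A → x.2 = false}

variable {A : Set K} {M : Set (Set K)}

/-- the projection -/
def π (x : D A M) : K := x.1.1

/-- the two copies of `K` in the doubling -/
def O (b : Bool) : Set (D A M) := {x | x.1.1 ∈ A ∨ x.1.2 = b}

instance : TopologicalSpace (D A M) :=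
  generateFrom {S | (∃ U, (IsOpen U ∨ U ∈ M ∨ Uᶜ ∈ M) ∧ S = π ⁻¹' U) ∨ ∃ b, S = O b}

theorem O_open (b : Bool) : IsOpen (O b : Set (D A M)) := isOpen_generateFrom_of_mem (Or.inr ⟨b, rfl⟩)

theorem π_cont : Continuous (π : D A M → K) :=
  continuous_def.2 fun U hU => isOpen_generateFrom_of_mem (Or.inl ⟨U, Or.inl hU, rfl⟩)

theorem π_clopen {W : Set K} (h : W ∈ M) : IsClopen (π ⁻¹' W : Set (D A M)) :=
  ⟨isOpen_compl_iff.1 (isOpen_generateFrom_of_mem (Or.inl ⟨Wᶜ, Or.inr (Or.inr (by rwa [compl_compl])), rfl⟩)),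
    isOpen_generateFrom_of_mem (Or.inl ⟨W, Or.inr (Or.inl h), rfl⟩)⟩

open Classical in
/-- the two sections -/
noncomputable def s (A : Set K) (M : Set (Set K)) (b : Bool) (x : K) : D A M :=
  ⟨(x, if x ∈ A then false else b), fun h => if_pos h⟩

theorem s_cont {Z : Type*} [TopologicalSpace Z] {f : Z → K} (hf : Continuous f) (hA : IsOpen (f ⁻¹' A))
    (hM : ∀ W ∈ M, IsClopen (f ⁻¹' W)) (b : Bool) : Continuous (s A M b ∘ f) := by
  refine continuous_generateFrom_iff.2 ?_
  rintro _ (⟨U, hU | hU | hU, rfl⟩ | ⟨c, rfl⟩)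
  · exact hU.preimage hf
  · exact (hM U hU).2
  · exact isClosed_compl_iff.1 (hM _ hU).1
  · by_cases hc : b = c
    · convert isOpen_univ
      refine eq_univ_of_forall fun z => or_iff_not_imp_left.2 fun h => ?_
      exact (if_neg h).trans hc
    · convert hA using 1
      refine Set.ext fun z => ⟨fun h => by_contra fun h' => h.elim h' fun h => hc ((if_neg h').symm.trans h), Or.inl⟩

omit [TopologicalSpace K] in
theorem s_eq (x : K) : s A M false x = s A M true x ↔ x ∈ A := by
  refine ⟨fun h => by_contra fun h' => ?_, fun h => Subtype.ext (Prod.ext rfl ((if_pos h).trans (if_pos h).symm))⟩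
  have := congrArg (fun y => y.1.2) h
  simp [s, h'] at this

theorem uok [T2Space K] (hK : NoConv K) (hM : M.PairwiseDisjoint id) : UOK (D (⋃₀ M) M) := by
  intro L _ _ _ _ f _ g h hg hh h1 h2
  have h3 : π ∘ g = π ∘ h := denseRange_coe.equalizer (π_cont.comp hg) (π_cont.comp hh)
    (funext fun l => by simp [h1, h2])
  funext y
  induction y using OnePoint.rec with
  | coe l => rw [h1, h2]
  | infty =>
    by_contra h4
    have h5 : (g ∞).1.1 = (h ∞).1.1 := congrFun h3 ∞
    have h6 : (g ∞).1.2 ≠ (h ∞).1.2 := fun h => h4 (Subtype.ext (Prod.ext h5 h))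
    have h7 : (π ∘ g) ∞ ∉ ⋃₀ M := fun h' => h6 (((g ∞).2 h').trans ((h ∞).2 (h5 ▸ h')).symm)
    obtain ⟨y, h8, h9⟩ := seq ∞ (π ∘ g) M hM (fun W hW => (π_clopen hW).preimage hg) h7 (by
      filter_upwards [((O_open (g ∞).1.2).preimage hg).mem_nhds (Or.inr rfl),
        ((O_open (h ∞).1.2).preimage hh).mem_nhds (Or.inr rfl)] with y h8 h9 hy
      lift y to L using hy
      rw [mem_preimage, h2, ← h1] at h9
      exact h8.elim id fun h8 => h9.elim id fun h9 => (h6 (h8.symm.trans h9)).elim)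
    exact hK _ _ (fun n h => h7 (mem_of_eq_of_mem h.symm (h9 n))) (((π_cont.comp hg).tendsto ∞).comp h8)

/-- the space `K` with the point `q` doubled -/
abbrev Dq (q : K) : Type u := D ({q}ᶜ : Set K) ∅

/-- the space `K \ {q}` -/
abbrev Lq (q : K) : Type u := {x : K // x ∈ ({q}ᶜ : Set K)}

theorem noncompact [T2Space K] {q : K} (hq : ¬ IsOpen {q}) : NoncompactSpace (Lq q) :=
  not_compactSpace_iff.1 fun h => hq (isClosed_compl_iff.1 (isCompact_iff_compactSpace.2 h).isClosed)

theorem locallyCompact [CompactSpace K] [T2Space K] (q : K) : LocallyCompactSpace (Lq q) :=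
  isOpen_compl_singleton.locallyCompactSpace

theorem not_uniqueExt [CompactSpace K] [T2Space K] {q : K} (hq : ¬ IsOpen {q}) :
    ¬ UniqueExt (Lq q) (Dq q) := by
  intro h
  have := locallyCompact q
  have := noncompact hq
  let e := equivOfIsEmbeddingOfRangeEq q (Subtype.val : Lq q → K) IsEmbedding.subtypeVal Subtype.range_coe
  have h1 := fun b => s_cont (A := {q}ᶜ) (M := ∅) e.continuous (isOpen_compl_singleton.preimage e.continuous)
    (fun _ h => h.elim) b
  exact (s_eq q).1 (congrFun (h _ ((h1 false).comp continuous_coe) _ _ (h1 false) (h1 true) (fun _ => rfl)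
    fun l => ((s_eq _).2 l.2).symm) ∞) rfl

theorem key [CompactSpace K] [T2Space K] [TotallyDisconnectedSpace K] (hK : NoConv K) (q : K)
    {C : (Z : Type v) → TopologicalSpace Z → Prop}
    (h : ∀ (X : Type u) [TopologicalSpace X], UOK X → CHaus C X) {Z : Type v} [τ : TopologicalSpace Z] (hZ : C Z τ)
    {f : Z → K} (hf : Continuous f) : IsOpen (f ⁻¹' {q}) := by
  have h1 : ∀ M : Set (Set K), M.PairwiseDisjoint id → (∀ W ∈ M, IsClopen (f ⁻¹' W)) → IsClopen (f ⁻¹' ⋃₀ M) :=
    fun M h1 h2 => by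
      have h3 : IsOpen (f ⁻¹' ⋃₀ M) := by
        rw [preimage_sUnion]
        exact isOpen_biUnion fun W hW => (h2 W hW).2
      refine ⟨?_, h3⟩
      convert h _ (uok hK h1) Z hZ _ ((s_cont hf h3 h2 false).prodMk (s_cont hf h3 h2 true)) using 1
      exact Set.ext fun z => (s_eq (A := ⋃₀ M) (M := M) (f z)).symm
  obtain ⟨M, hM⟩ := zorn_subset {M : Set (Set K) | M.PairwiseDisjoint id ∧ ∀ W ∈ M, q ∉ W ∧ IsClopen (f ⁻¹' W)}
    fun c hc hch => ⟨⋃₀ c, ⟨(pairwiseDisjoint_sUnion hch.directedOn).2 fun M hM => (hc hM).1,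
      fun W ⟨M, hM, hW⟩ => (hc hM).2 W hW⟩, fun _ h => subset_sUnion_of_mem h⟩
  have h2 := h1 M hM.prop.1 fun W hW => (hM.prop.2 W hW).2
  have h3 : ⋃₀ M = {q}ᶜ := by
    refine Subset.antisymm (fun x ⟨W, hW, hx⟩ h => (hM.prop.2 W hW).1 (h ▸ hx)) fun x hx => by_contra fun h4 => ?_
    obtain ⟨V, h5, h6, h7⟩ := exists_isClopen_of_totally_separated (show x ≠ q from hx)
    refine h4 ⟨V \ ⋃₀ M, hM.le_of_ge (y := insert (V \ ⋃₀ M) M) ⟨hM.prop.1.insert fun W hW _ => ?_, ?_⟩
      (subset_insert _ _) (mem_insert _ _), h6, h4⟩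
    · exact disjoint_left.2 fun y hy hy' => hy.2 ⟨W, hW, hy'⟩
    · rintro W (rfl | hW)
      · exact ⟨fun h => h7 h.1, (h5.preimage hf).diff h2⟩
      · exact hM.prop.2 W hW
  rw [h3] at h2
  exact isClosed_compl_iff.1 h2.1

theorem cHaus_Dq [CompactSpace K] [T2Space K] [TotallyDisconnectedSpace K] (hK : NoConv K) (q : K)
    (C : (Z : Type v) → TopologicalSpace Z → Prop)
    (h : ∀ (X : Type u) [TopologicalSpace X], UOK X → CHaus C X) : CHaus C (Dq q) := by
  intro Z _ hZ F hF
  have h1 := key hK q h hZ (π_cont.comp hF.fst)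
  refine isOpen_compl_iff.1 (isOpen_iff_mem_nhds.2 fun z hz => ?_)
  by_cases h2 : π (F z).1 = π (F z).2
  · have h3 : (F z).1.1.2 ≠ (F z).2.1.2 := fun h => hz (Subtype.ext (Prod.ext h2 h))
    have h4 : π (F z).1 = q := by_contra fun h => h3 (((F z).1.2 h).trans ((F z).2.2 (h2 ▸ h :)).symm)
    filter_upwards [h1.mem_nhds h4, ((O_open (F z).1.1.2).preimage hF.fst).mem_nhds (Or.inr rfl),
      ((O_open (F z).2.1.2).preimage hF.snd).mem_nhds (Or.inr rfl)] with y h5 h6 h7 h8
    rw [mem_preimage, ← show (F y).1 = (F y).2 from h8] at h7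
    exact h6.elim (fun h => h h5) fun h6 => h7.elim (fun h => h h5) fun h7 => h3 (h6.symm.trans h7)
  · filter_upwards [(isOpen_ne_fun (π_cont.comp hF.fst) (π_cont.comp hF.snd)).mem_nhds h2] with y h3 h4
    exact h3 (congrArg π h4)

theorem compact_Dq [CompactSpace K] [T2Space K] (q : K) : CompactSpace (Dq q) := by
  have h1 := fun b => s_cont (A := {q}ᶜ) (M := ∅) (continuous_id (X := K)) isOpen_compl_singleton
    (fun _ h => h.elim) b
  refine ⟨?_⟩
  have h2 : (univ : Set (Dq q)) = range (s {q}ᶜ ∅ false ∘ id) ∪ range (s {q}ᶜ ∅ true ∘ id) := by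
    refine (eq_univ_of_forall fun x => ?_).symm
    obtain ⟨⟨x, b⟩, hx⟩ := x
    by_cases h : x ∈ ({q}ᶜ : Set K)
    · exact Or.inl ⟨x, Subtype.ext (Prod.ext rfl ((if_pos h).trans (hx h).symm))⟩
    · cases b
      · exact Or.inl ⟨x, Subtype.ext (Prod.ext rfl (if_neg h))⟩
      · exact Or.inr ⟨x, Subtype.ext (Prod.ext rfl (if_neg h))⟩
  rw [h2]
  exact (isCompact_range (h1 false)).union (isCompact_range (h1 true))

theorem t1_Dq [T2Space K] (q : K) : T1Space (Dq q) := by
  refine ⟨fun x => ?_⟩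
  obtain ⟨⟨x, b⟩, hx⟩ := x
  by_cases h : x ∈ ({q}ᶜ : Set K)
  · have : ({⟨⟨x, b⟩, hx⟩} : Set (Dq q)) = π ⁻¹' {x} := by
      ext y
      refine ⟨fun h => congrArg π h, fun h' => ?_⟩
      have h1 : y.1.1 = x := h'
      exact Subtype.ext (Prod.ext h1 ((y.2 (h1 ▸ h)).trans (hx h).symm))
    rw [this]
    exact isClosed_singleton.preimage π_cont
  · have hxq : x = q := by simpa using h
    have : ({⟨⟨x, b⟩, hx⟩} : Set (Dq q)) = (O (!b))ᶜ := by
      ext y
      constructor
      · rintro rfl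
        rintro (h1 | h1)
        · exact h h1
        · cases b <;> cases h1
      · intro h'
        have h1 : y.1.1 = q := by
          by_contra hc
          exact h' (Or.inl hc)
        have h2 : y.1.2 ≠ !b := fun hc => h' (Or.inr hc)
        refine Subtype.ext (Prod.ext (h1.trans hxq.symm) ?_)
        show y.1.2 = b
        revert h2
        cases y.1.2 <;> cases b <;> simp
    rw [this]
    exact (O_open _).isClosed_compl

end General

/-! ### The space `βω` -/

theorem noconv : NoConv (Ultrafilter (ULift.{u} ℕ)) := by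
  intro s x hne h
  have h0 : ∀ B ∈ x, ∀ᶠ n in atTop, B ∈ s n := fun B hB => h.eventually ((ultrafilter_isOpen_basic B).mem_nhds hB)
  have h1 : ∀ (B : {B // B ∈ x}) (N : ℕ), ∃ n ≥ N, ∃ A, A ⊆ B.1 ∧ A ∈ s n ∧ A ∉ x := fun B N => by
    obtain ⟨n, h1, h2⟩ := ((eventually_ge_atTop N).and (h0 _ B.2)).exists
    obtain ⟨A, h3, h4⟩ : ∃ A, A ∈ s n ∧ A ∉ x := by
      by_contra h5
      push Not at h5
      exact hne n (Ultrafilter.eq_of_le h5).symm
    exact ⟨n, h1, A ∩ B, inter_subset_right, inter_mem h3 h2, fun h => h4 (mem_of_superset h inter_subset_left)⟩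
  choose n hn A h1 h2 h3 using h1
  let B : ℕ → {B // B ∈ x} := fun k => Nat.rec ⟨univ, univ_mem⟩
    (fun k B => ⟨B.1 \ A B k, inter_mem B.2 (Ultrafilter.compl_mem_iff_notMem.2 (h3 B k))⟩) k
  have h4 : Antitone fun k => (B k).1 := antitone_nat_of_succ_le fun k => sdiff_subset
  have h5 : ∀ j k, j < k → ∀ a ∈ A (B j) j, a ∉ A (B k) k := fun j k h a ha hb => (h4 h (h1 _ _ hb)).2 ha
  have h6 : ∀ j k, j ≠ k → ∀ a ∈ A (B j) j, a ∉ A (B k) k := fun j k h a ha hb =>
    (lt_or_gt_of_ne h).elim (fun h => h5 j k h a ha hb) fun h => h5 k j h a hb ha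
  rcases x.mem_or_compl_mem (⋃ k, A (B (2 * k)) (2 * k)) with h7 | h7
  · obtain ⟨N, hN⟩ := eventually_atTop.1 (h0 _ h7)
    obtain ⟨a, ha, hb⟩ := Ultrafilter.nonempty_of_mem (inter_mem (hN _ (le_trans (by omega) (hn (B (2 * N + 1)) (2 * N + 1)))) (h2 _ _))
    obtain ⟨k, hk⟩ := mem_iUnion.1 ha
    exact h6 (2 * k) (2 * N + 1) (by omega) a hk hb
  · obtain ⟨N, hN⟩ := eventually_atTop.1 (h0 _ h7)
    obtain ⟨a, ha, hb⟩ := Ultrafilter.nonempty_of_mem (inter_mem (hN _ (le_trans (by omega) (hn (B (2 * N)) (2 * N)))) (h2 _ _))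
    exact ha (mem_iUnion.2 ⟨N, hb⟩)

theorem not_isOpen {q : Ultrafilter (ULift.{u} ℕ)} (hq : ∀ n, q ≠ pure n) :
    ¬ IsOpen ({q} : Set (Ultrafilter (ULift.{u} ℕ))) := by
  intro h
  obtain ⟨n, hn⟩ := denseRange_pure.exists_mem_open h (singleton_nonempty q)
  exact hq n hn.symm

/-- (1) Let `K` be a totally disconnected compact Hausdorff space without nontrivial convergent
sequences and `q ∈ K` not isolated.  The space `Dq q`, which is `K` with the point `q` doubled, is a
compact `T1` space; it is `C`-Hausdorff for every class `C` of test spaces for which all UOK spaces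
are `C`-Hausdorff, but some continuous map from the non-compact locally compact Hausdorff space
`Lq q = K \\ {q}` into it has two continuous extensions to the one-point compactification.
(2) So, if a property `P` of topological spaces is implied by UOK and implies the uniqueness of the
extensions for the single space `Lq q`, there is no class `C` of test spaces such that `P` is
equivalent to being `C`-Hausdorff.
(3) This applies to `K = βω` and all free ultrafilters `q`, and there are free ultrafilters.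
(4) Hence if a class `𝓛` of non-compact locally compact Hausdorff spaces contains `βω \\ {q}` for
some free ultrafilter `q`, no class `C` characterises the uniqueness of extensions for all
spaces in `𝓛`.
(5) (Q1) No class `C` characterises UOK. -/
theorem result :
    (∀ (K : Type u) [TopologicalSpace K] [CompactSpace K] [T2Space K] [TotallyDisconnectedSpace K],
      NoConv K → ∀ q : K, ¬ IsOpen {q} →
        (T2Space (Lq q) ∧ LocallyCompactSpace (Lq q) ∧ NoncompactSpace (Lq q)) ∧
        CompactSpace (Dq q) ∧ T1Space (Dq q) ∧ ¬ UniqueExt (Lq q) (Dq q) ∧ ¬ UOK (Dq q) ∧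
        (∀ C : (Z : Type v) → TopologicalSpace Z → Prop,
          (∀ (X : Type u) [TopologicalSpace X], UOK X → CHaus C X) → CHaus C (Dq q)) ∧
        ∀ P : (X : Type u) → TopologicalSpace X → Prop,
          (∀ (X : Type u) [t : TopologicalSpace X], UOK X → P X t) →
          (∀ (X : Type u) [t : TopologicalSpace X], P X t → UniqueExt (Lq q) X) →
          ¬ ∃ C : (Z : Type v) → TopologicalSpace Z → Prop,
            ∀ (X : Type u) [t : TopologicalSpace X], P X t ↔ CHaus C X) ∧
    (NoConv (Ultrafilter (ULift.{u} ℕ)) ∧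
      (∀ q : Ultrafilter (ULift.{u} ℕ), (∀ n, q ≠ pure n) → ¬ IsOpen {q}) ∧
      ∃ q : Ultrafilter (ULift.{u} ℕ), ∀ n, q ≠ pure n) ∧
    (∀ 𝓛 : (L : Type u) → TopologicalSpace L → Prop,
      (∀ (L : Type u) [t : TopologicalSpace L], 𝓛 L t →
        T2Space L ∧ LocallyCompactSpace L ∧ NoncompactSpace L) →
      (∃ q : Ultrafilter (ULift.{u} ℕ), (∀ n, q ≠ pure n) ∧ 𝓛 (Lq q) inferInstance) →
      ¬ ∃ C : (Z : Type v) → TopologicalSpace Z → Prop, ∀ (X : Type u) [TopologicalSpace X],
        (∀ (L : Type u) [t : TopologicalSpace L], 𝓛 L t → UniqueExt L X) ↔ CHaus C X) ∧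
    ¬ ∃ C : (Z : Type v) → TopologicalSpace Z → Prop,
      ∀ (X : Type u) [TopologicalSpace X], CHaus C X ↔ UOK X := by
  have main : ∀ (K : Type u) [TopologicalSpace K] [CompactSpace K] [T2Space K]
      [TotallyDisconnectedSpace K], NoConv K → ∀ q : K, ¬ IsOpen {q} →
      ∀ P : (X : Type u) → TopologicalSpace X → Prop,
          (∀ (X : Type u) [t : TopologicalSpace X], UOK X → P X t) →
          (∀ (X : Type u) [t : TopologicalSpace X], P X t → UniqueExt (Lq q) X) →
          ¬ ∃ C : (Z : Type v) → TopologicalSpace Z → Prop,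
            ∀ (X : Type u) [t : TopologicalSpace X], P X t ↔ CHaus C X := by
    rintro K _ _ _ _ hK q hq P h1 h2 ⟨C, hC⟩
    exact not_uniqueExt hq (h2 _ ((hC _).2 (cHaus_Dq hK q C fun X _ h => (hC X).1 (h1 X h))))
  have free : ∃ q : Ultrafilter (ULift.{u} ℕ), ∀ n, q ≠ pure n := by
    refine ⟨hyperfilter _, fun n h => ?_⟩
    have h1 : {n} ∈ (hyperfilter (ULift.{u} ℕ)) := h ▸ Ultrafilter.mem_pure.2 rfl
    exact (finite_singleton n).notMem_hyperfilter h1
  refine ⟨fun K _ _ _ _ hK q hq => ⟨⟨inferInstance, locallyCompact q, noncompact hq⟩, compact_Dq q,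
    t1_Dq q, not_uniqueExt hq, fun h => ?_, fun C h => cHaus_Dq hK q C h, main K hK q hq⟩,
    ⟨noconv, fun q hq => not_isOpen hq, free⟩, ?_, ?_⟩
  · have := locallyCompact q
    have := noncompact hq
    exact not_uniqueExt hq (h _)
  · rintro 𝓛 h1 ⟨q, hq, hL⟩ ⟨C, hC⟩
    refine main _ noconv q (not_isOpen hq)
      (fun X t => ∀ (L : Type u) [t' : TopologicalSpace L], 𝓛 L t' → @UniqueExt L t' X t) ?_ ?_
      ⟨C, fun X t => hC X⟩
    · intro X _ hX L t' hL'
      obtain ⟨h2, h3, h4⟩ := h1 L hL'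
      exact hX L
    · exact fun X _ hX => hX _ hL
  · rintro ⟨C, hC⟩
    obtain ⟨q, hq⟩ := free
    have := locallyCompact q
    have := noncompact (not_isOpen hq)
    exact main _ noconv q (not_isOpen hq) (fun X t => @UOK X t) (fun X _ h => h)
      (fun X _ h => h _) ⟨C, fun X _ => (hC X).symm⟩

end Pool.Agent.Results.MP_82653f_gt.IntervalOfProperties
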